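import Pool.Agent.TH230.Aug.Points

/-!
# A disconnected augmented deformation space

For the branched covering `f (z) = z ^ 3` of the sphere `ℂ ∪ {∞}`, with `A = B = {0, ∞, 1, -1}` and
`ι` the identity, the augmented deformation space is not connected, and it meets the Teichmüller
space. This answers Q2 of MP_21db80_an in the negative.
-/

set_option autoImplicit false

open Set Topology
open scoped OnePoint

open Pool.Agent.TH230.Aug

/-- There is a pair `(f, ι)` in the setting of the problem for which the deformation space is not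
empty and the augmented deformation space is disconnected; in fact `A = B = {0, ∞, 1, -1}`,
`f (z) = z ^ 3` and `ι = id` is such a pair. -/
theorem Pool.Agent.Results.MP_21db80_an.DisconnectedAD.result :
    ∃ (A B : Set Sph) (f : Sph → Sph) (ι : Sph ≃ₜ Sph),
      A = {((0 : ℂ) : Sph), ∞, ((1 : ℂ) : Sph), ((-1 : ℂ) : Sph)} ∧ B = A ∧
      (∀ z : ℂ, f (z : Sph) = ((z ^ 3 : ℂ) : Sph)) ∧ f ∞ = ∞ ∧ (∀ x, ι x = x) ∧
      Setting A B f ι ∧ (DefSpace A B f ι).Nonempty ∧ ¬ IsPreconnected (AD A B f ι) := by
  refine ⟨A4, A4, cube, Homeomorph.refl Sph, ?_, rfl, fun z => rfl, rfl, fun x => rfl,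
    setting_cube, ⟨AT.mk m1, m1_mem, m1, rfl, rfl⟩, not_preconnected⟩
  ext x
  simp only [A4, mem_range, mem_insert_iff, mem_singleton_iff]
  constructor
  · rintro ⟨i, rfl⟩
    fin_cases i <;> simp
  · rintro (rfl | rfl | rfl | rfl)
    · exact ⟨0, rfl⟩
    · exact ⟨1, rfl⟩
    · exact ⟨2, rfl⟩
    · exact ⟨3, rfl⟩
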